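import Mathlib
import Pool.Agent.Work.MP_f1d084_lc.Uni1

set_option autoImplicit false

namespace Pool.Agent.Work.MP_f1d084_lc

/-- Back and forth between two countable sets, with control of all finite sets. -/
theorem back_forth_fin {P Q : Type} [Countable P] [Countable Q] [Nonempty P] [Nonempty Q]
    (E : List (P × Q) → Prop)
    (hforth : ∀ l, E l → ∀ p, ∃ q, E ((p, q) :: l))
    (hback : ∀ l, E l → ∀ q, ∃ p, E ((p, q) :: l))
    (heq : ∀ l, E l → ∀ x ∈ l, ∀ y ∈ l, (x.1 = y.1 ↔ x.2 = y.2))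
    (l0 : List (P × Q)) (h0 : E l0) : ∃ f : P ≃ Q, (∀ x ∈ l0, f x.1 = x.2) ∧
      ∀ F : Finset P, ∃ l, E l ∧ ∀ p ∈ F, (p, f p) ∈ l := by
  classical
  obtain ⟨eP, heP⟩ := exists_surjective_nat P
  obtain ⟨eQ, heQ⟩ := exists_surjective_nat Q
  choose F hF using hforth
  choose B hB using hback
  let step : ℕ → {l // E l} → {l // E l} := fun k l =>
    let l1 : {l // E l} := ⟨(eP k, F l.1 l.2 (eP k)) :: l.1, hF l.1 l.2 (eP k)⟩
    ⟨(B l1.1 l1.2 (eQ k), eQ k) :: l1.1, hB l1.1 l1.2 (eQ k)⟩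
  let s : ℕ → {l // E l} := fun n => Nat.rec ⟨l0, h0⟩ (fun k l => step k l) n
  have hs : ∀ k, s (k + 1) = step k (s k) := fun k => rfl
  have hsub : ∀ k, (s k).1 ⊆ (s (k + 1)).1 := by
    intro k x hx
    rw [hs]
    exact List.mem_cons_of_mem _ (List.mem_cons_of_mem _ hx)
  have hmono : ∀ k m, k ≤ m → (s k).1 ⊆ (s m).1 := by
    intro k m hkm
    induction hkm with
    | refl => exact fun _ h => h
    | step _ ih => exact fun x hx => hsub _ (ih hx)
  have hP : ∀ p, ∃ q k, (p, q) ∈ (s k).1 := by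
    intro p
    obtain ⟨k, rfl⟩ := heP p
    refine ⟨F (s k).1 (s k).2 (eP k), k + 1, ?_⟩
    rw [hs]
    exact List.mem_cons_of_mem _ List.mem_cons_self
  have hQ : ∀ q, ∃ p k, (p, q) ∈ (s k).1 := by
    intro q
    obtain ⟨k, rfl⟩ := heQ q
    refine ⟨B ((eP k, F (s k).1 (s k).2 (eP k)) :: (s k).1) (hF (s k).1 (s k).2 (eP k)) (eQ k),
      k + 1, ?_⟩
    rw [hs]
    exact List.mem_cons_self
  choose f kf hf using hP
  choose g kg hg using hQ
  have hcomp : ∀ {p q p' q' k k'}, (p, q) ∈ (s k).1 → (p', q') ∈ (s k').1 →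
      (p = p' ↔ q = q') := by
    intro p q p' q' k k' h h'
    have h1 := hmono k (max k k') (le_max_left _ _) h
    have h2 := hmono k' (max k k') (le_max_right _ _) h'
    exact heq _ (s (max k k')).2 _ h1 _ h2
  refine ⟨{ toFun := f, invFun := g, left_inv := ?_, right_inv := ?_}, ?_, ?_⟩
  · intro p
    exact (hcomp (hg (f p)) (hf p)).mpr rfl
  · intro q
    exact (hcomp (hf (g q)) (hg q)).mp rfl
  · intro x hx
    have h1 : (x.1, x.2) ∈ (s 0).1 := hx
    exact (hcomp (k' := 0) (hf x.1) h1).mp rfl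
  · intro A
    exact ⟨_, (s (A.sup kf)).2, fun p hp => hmono _ _ (Finset.le_sup hp) (hf p)⟩

section

variable {I : Type} {ar : I → ℕ}

/-- The tuples `a` in `M` and `b` in `N` have the same atomic type. -/
def SameAt (M N : Str ar) {n : ℕ} (a b : Fin n → ℕ) : Prop :=
  (∀ j k, a j = a k ↔ b j = b k) ∧
    ∀ (i : I) (h : Fin (ar i) → Fin n), M i (fun j => a (h j)) = N i (fun j => b (h j))

/-- One point extensions of tuples with the same atomic type. -/
def ExtU (M N : Str ar) : Prop :=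
  ∀ (n : ℕ) (a b : Fin n → ℕ), SameAt M N a b → ∀ c : ℕ, ∃ d : ℕ,
    SameAt M N (Fin.cons c a : Fin (n + 1) → ℕ) (Fin.cons d b : Fin (n + 1) → ℕ)

theorem SameAt.symm {M N : Str ar} {n : ℕ} {a b : Fin n → ℕ} (h : SameAt M N a b) :
    SameAt N M b a := ⟨fun j k => (h.1 j k).symm, fun i x => (h.2 i x).symm⟩

theorem SameAt.trans {M N L : Str ar} {n : ℕ} {a b d : Fin n → ℕ} (h : SameAt M N a b)
    (h' : SameAt N L b d) : SameAt M L a d :=
  ⟨fun j k => (h.1 j k).trans (h'.1 j k), fun i x => (h.2 i x).trans (h'.2 i x)⟩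

theorem SameAt.relabel {M N : Str ar} {n m : ℕ} {a b : Fin n → ℕ} (h : SameAt M N a b)
    (f : Fin m → Fin n) : SameAt M N (fun i => a (f i)) (fun i => b (f i)) :=
  ⟨fun j k => h.1 (f j) (f k), fun i x => h.2 i fun j => f (x j)⟩

theorem SameAt.of_iso {M N : Str ar} {g : Equiv.Perm ℕ} (h : IsIso M N g) {n : ℕ}
    (a : Fin n → ℕ) : SameAt M N a (fun i => g (a i)) :=
  ⟨fun j k => by rw [g.injective.eq_iff], fun i x => (h i _).symm⟩

theorem IsIso.symm {M N : Str ar} {g : Equiv.Perm ℕ} (h : IsIso M N g) : IsIso N M g.symm := by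
  intro i x
  have h1 := h i fun j => g.symm (x j)
  simp only [Equiv.apply_symm_apply] at h1
  exact h1.symm

theorem IsIso.trans {M N L : Str ar} {g g' : Equiv.Perm ℕ} (h : IsIso M N g)
    (h' : IsIso N L g') : IsIso M L (g.trans g') := by
  intro i x
  exact (h' i fun j => g (x j)).trans (h i x)

theorem isIso_refl (M : Str ar) : IsIso M M (Equiv.refl ℕ) := fun _ _ => rfl

/-- Structures with the extension property in both directions are isomorphic. -/
theorem isIso_of_extU {M N : Str ar} (h1 : ExtU M N) (h2 : ExtU N M) {n : ℕ} (a b : Fin n → ℕ)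
    (h : SameAt M N a b) : ∃ g : Equiv.Perm ℕ, IsIso M N g ∧ ∀ j, g (a j) = b j := by
  classical
  let E : List (ℕ × ℕ) → Prop := fun l =>
    SameAt M N (fun i : Fin l.length => (l.get i).1) (fun i : Fin l.length => (l.get i).2)
  have hcons : ∀ (l : List (ℕ × ℕ)) (p q : ℕ),
      (fun i : Fin ((p, q) :: l).length => (((p, q) :: l).get i).1) =
        (Fin.cons p (fun i : Fin l.length => (l.get i).1) : Fin (l.length + 1) → ℕ) ∧
      (fun i : Fin ((p, q) :: l).length => (((p, q) :: l).get i).2) =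
        (Fin.cons q (fun i : Fin l.length => (l.get i).2) : Fin (l.length + 1) → ℕ) := by
    intro l p q
    constructor <;>
    · funext i
      refine Fin.cases ?_ (fun i => ?_) i
      · rfl
      · rfl
  set l0 : List (ℕ × ℕ) := List.ofFn (fun i => (a i, b i)) with hl0
  have hlen : l0.length = n := by simp [hl0]
  have hget : ∀ i : Fin l0.length, l0.get i = (a (i.cast hlen), b (i.cast hlen)) := by
    intro i
    rw [List.get_eq_getElem, ← List.getElem_ofFn (f := fun i => (a i, b i))]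
    rfl
  have h0 : E l0 := by
    have h3 := h.relabel fun i : Fin l0.length => i.cast hlen
    change SameAt M N _ _
    convert h3 using 1
    · funext i
      rw [hget]
    · funext i
      rw [hget]
  have hf : ∀ l, E l → ∀ p, ∃ q, E ((p, q) :: l) := by
    intro l hl p
    obtain ⟨q, hq⟩ := h1 _ _ _ hl p
    refine ⟨q, ?_⟩
    change SameAt M N _ _
    rw [(hcons l p q).1, (hcons l p q).2]
    exact hq
  have hb : ∀ l, E l → ∀ q, ∃ p, E ((p, q) :: l) := by
    intro l hl q
    obtain ⟨p, hp⟩ := h2 _ _ _ hl.symm q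
    refine ⟨p, ?_⟩
    change SameAt M N _ _
    rw [(hcons l p q).1, (hcons l p q).2]
    exact hp.symm
  have he : ∀ l, E l → ∀ x ∈ l, ∀ y ∈ l, (x.1 = y.1 ↔ x.2 = y.2) := by
    intro l hl x hx y hy
    obtain ⟨i, rfl⟩ := List.get_of_mem hx
    obtain ⟨j, rfl⟩ := List.get_of_mem hy
    exact hl.1 i j
  obtain ⟨g, hg1, hg2⟩ := back_forth_fin E hf hb he l0 h0
  refine ⟨g, ?_, fun j => hg1 (a j, b j) ?_⟩
  · intro i x
    obtain ⟨l, hl, hlx⟩ := hg2 (Finset.univ.image x)
    have h3 : ∀ j, ∃ k : Fin l.length, l.get k = (x j, g (x j)) := fun j =>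
      List.get_of_mem (hlx (x j) (by simp))
    choose k hk using h3
    have h4 := hl.2 i k
    have h5 : (fun j => (l.get (k j)).1) = x := by
      funext j
      rw [hk]
    have h6 : (fun j => (l.get (k j)).2) = fun j => g (x j) := by
      funext j
      rw [hk]
    rw [h5, h6] at h4
    exact h4.symm
  · rw [hl0, List.mem_ofFn]
    exact ⟨j, rfl⟩

theorem UH.ext {M : Str ar} (h : UH M) : ExtU M M := by
  intro n a b hab c
  obtain ⟨g, hg1, hg2⟩ := h n a b hab.1 hab.2
  refine ⟨g c, ?_⟩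
  have h1 := SameAt.of_iso hg1 (Fin.cons c a : Fin (n + 1) → ℕ)
  convert h1 using 1
  funext i
  refine Fin.cases ?_ (fun i => ?_) i
  · rfl
  · simp [hg2]

/-- Ultrahomogeneity is the one point extension property. -/
theorem uh_iff_ext {M : Str ar} : UH M ↔ ExtU M M :=
  ⟨UH.ext, fun h _ a b h1 h2 => isIso_of_extU h h a b ⟨h1, h2⟩⟩

theorem UH.of_isIso {M N : Str ar} {g : Equiv.Perm ℕ} (hM : UH M) (hg : IsIso M N g) : UH N := by
  intro n a b h1 h2
  have h3 : SameAt N N a b := ⟨h1, h2⟩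
  have h4 := (SameAt.of_iso hg.symm a).symm.trans (h3.trans (SameAt.of_iso hg.symm b))
  obtain ⟨f, hf1, hf2⟩ := hM n _ _ h4.1 h4.2
  refine ⟨(g.symm.trans f).trans g, ((hg.symm.trans hf1).trans hg), fun j => ?_⟩
  have := hf2 j
  simp [this]

theorem measurable_coord (i : I) (x : Fin (ar i) → ℕ) : Measurable fun M : Str ar => M i x :=
  (measurable_pi_apply x).comp (measurable_pi_apply i)

theorem meas_sameAt [Countable I] {X : Type} [MeasurableSpace X] (F G : X → Str ar)
    (hF : Measurable F) (hG : Measurable G) {n : ℕ} (a b : Fin n → ℕ) :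
    MeasurableSet {M : X | SameAt (F M) (G M) a b} := by
  have : {M : X | SameAt (F M) (G M) a b} = {_M : X | ∀ j k, a j = a k ↔ b j = b k} ∩
      ⋂ (i : I), ⋂ (h : Fin (ar i) → Fin n),
        {M : X | F M i (fun j => a (h j)) = G M i (fun j => b (h j))} := by
    ext M
    simp only [SameAt, Set.mem_ofPred_eq, Set.mem_inter_iff, Set.mem_iInter]
  rw [this]
  refine (MeasurableSet.const _).inter (MeasurableSet.iInter fun i =>
    MeasurableSet.iInter fun h => ?_)
  exact measurableSet_eq_fun ((measurable_coord i _).comp hF) ((measurable_coord i _).comp hG)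

/-- The ultrahomogeneous structures form a Borel set. -/
theorem measurableSet_UH [Countable I] : MeasurableSet {M : Str ar | UH M} := by
  have : {M : Str ar | UH M} = ⋂ (n : ℕ), ⋂ (a : Fin n → ℕ), ⋂ (b : Fin n → ℕ),
      {M : Str ar | SameAt M M a b}ᶜ ∪ ⋂ (c : ℕ), ⋃ (d : ℕ),
        {M : Str ar | SameAt M M (Fin.cons c a : Fin (n + 1) → ℕ)
          (Fin.cons d b : Fin (n + 1) → ℕ)} := by
    ext M
    simp only [Set.mem_ofPred_eq, Set.mem_iInter, Set.mem_union, Set.mem_compl_iff,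
      ← imp_iff_not_or, Set.mem_iUnion, uh_iff_ext]
    exact Iff.rfl
  rw [this]
  refine MeasurableSet.iInter fun n => MeasurableSet.iInter fun a =>
    MeasurableSet.iInter fun b => ?_
  exact (meas_sameAt _ _ measurable_id measurable_id a b).compl.union
    (MeasurableSet.iInter fun c => MeasurableSet.iUnion
      fun d => meas_sameAt _ _ measurable_id measurable_id _ _)

end

end Pool.Agent.Work.MP_f1d084_lc
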