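import Mathlib
import Pool.Agent.Work.MP_f1d084_lc.Uni5
import Pool.Agent.Work.MP_f1d084_lc.B.UHx

set_option autoImplicit false

namespace Pool.Agent.Work.MP_f1d084_lc

open FirstOrder

/-- The arities of the universal countable relational language: the symbol `(k, i)` has the
arity `k`. -/
abbrev arU : ℕ × ℕ → ℕ := Prod.fst

theorem exists_en (k : ℕ) : ∃ e : ℕ → Language.order.Formula (Fin k), Function.Surjective e :=
  haveI : Nonempty (Language.order.Formula (Fin k)) := ⟨⊤⟩
  exists_surjective_nat _

/-- An enumeration of the formulas with `k` free variables. -/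
noncomputable def en (k : ℕ) : ℕ → Language.order.Formula (Fin k) := (exists_en k).choose

theorem en_surj (k : ℕ) : Function.Surjective (en k) := (exists_en k).choose_spec

/-- The formula `x ≤ y`. -/
def leFor : Language.order.Formula (Fin 2) :=
  Language.Relations.formula₂ (Language.IsOrdered.leSymb : Language.order.Relations 2)
      (Language.Term.var 0) (Language.Term.var 1)

/-- Its number. -/
noncomputable def leIx : ℕ := (en_surj 2 leFor).choose

theorem en_leIx : en 2 leIx = leFor := (en_surj 2 leFor).choose_spec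

open Classical in
/-- The expansion by all first-order definable relations. -/
noncomputable def Psi (R : Code) : Str arU := fun p x =>
  decide (@Language.Formula.Realize _ ℕ (strOf R) _ (en p.1 p.2) x)

/-- The order relation of a structure. -/
noncomputable def red (M : Str arU) : Code := fun a b => M (2, leIx) ![a, b]

theorem psi_iff (R : Code) (p : ℕ × ℕ) (x : Fin p.1 → ℕ) : Psi R p x = true ↔
    @Language.Formula.Realize _ ℕ (strOf R) _ (en p.1 p.2) x := by
  classical
  exact decide_eq_true_iff

theorem leFor_iff (R : Code) (x : Fin 2 → ℕ) :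
    @Language.Formula.Realize _ ℕ (strOf R) _ leFor x ↔ R (x 0) (x 1) = true := by
  let _ := strOf R
  unfold leFor
  rw [Language.Formula.realize_rel₂]
  exact Iff.rfl

theorem red_Psi (R : Code) : red (Psi R) = R := by
  funext a b
  rw [Bool.eq_iff_iff]
  unfold red
  rw [psi_iff]
  change @Language.Formula.Realize _ ℕ (strOf R) _ (en 2 leIx) ![a, b] ↔ _
  rw [en_leIx, leFor_iff]
  exact Iff.rfl

theorem measurable_Psi : Measurable Psi := by
  classical
  refine measurable_pi_lambda _ fun p => measurable_pi_lambda _ fun x => ?_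
  refine measurable_to_bool ?_
  have : (fun R : Code => Psi R p x) ⁻¹' {true} =
      {R : Code | @Language.Formula.Realize _ ℕ (strOf R) _ (en p.1 p.2) x} := by
    ext R
    rw [Set.mem_preimage, Set.mem_singleton_iff, psi_iff]
    exact Iff.rfl
  rw [this]
  exact meas_formula (en p.1 p.2) x

theorem measurable_red : Measurable red := by
  refine measurable_pi_lambda _ fun a => measurable_pi_lambda _ fun b => ?_
  exact measurable_coord (ar := arU) (2, leIx) ![a, b]

/-- Isomorphisms preserve the order relations. -/
theorem isIso_red {M N : Str arU} {g : Equiv.Perm ℕ} (h : IsIso M N g) (a b : ℕ) :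
    red N (g a) (g b) = red M a b := by
  have h1 := h (2, leIx) ![a, b]
  have h2 : (fun j => g (![a, b] j)) = ![g a, g b] := by
    funext j
    refine Fin.cases ?_ (fun j => ?_) j
    · rfl
    · refine Fin.cases ?_ (fun j => ?_) j
      · rfl
      · exact j.elim0
  exact (congrArg (N (2, leIx)) h2.symm).trans h1

theorem isIso_Psi_iff (R S : Code) (g : Equiv.Perm ℕ) :
    IsIso (Psi R) (Psi S) g ↔ ∀ a b, S (g a) (g b) = R a b := by
  classical
  constructor
  · intro h a b
    have h1 := isIso_red h a b
    rwa [red_Psi, red_Psi] at h1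
  · intro h p x
    have h1 := SameType.of_iso (permIso g h) (P := OfCode R) (Q := OfCode S) (n := p.1) x
    exact decide_eq_decide.mpr (h1 (en p.1 p.2)).symm

theorem isIso_Psi_iff' (R S : Code) (g : Equiv.Perm ℕ) :
    IsIso (Psi R) (Psi S) g ↔ ∃ f : OfCode R ≃o OfCode S, ∀ x : ℕ, f x = g x := by
  rw [isIso_Psi_iff]
  constructor
  · intro h
    exact ⟨permIso g h, fun _ => rfl⟩
  · rintro ⟨f, hf⟩ a b
    have h1 := f.le_iff_le (x := (a : OfCode R)) (y := (b : OfCode R))
    have h2 : f (a : OfCode R) = g a := hf a
    have h3 : f (b : OfCode R) = g b := hf b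
    rw [h2, h3] at h1
    exact Bool.eq_iff_iff.mpr h1

theorem uh_Psi_iff (R : Code) : UH (Psi R) ↔ ElemHomog (OfCode R) := by
  classical
  constructor
  · intro h n a b hab
    obtain ⟨g, hg1, hg2⟩ := h n a b (fun j k => hab.iff_eq j k) (by
      intro p x
      have h1 := hab.relabel x
      exact decide_eq_decide.mpr (h1 (en p.1 p.2)))
    exact ⟨permIso g ((isIso_Psi_iff R R g).mp hg1), hg2⟩
  · intro h n a b _ h2
    have hab : @SameType (OfCode R) (OfCode R) _ _ n a b := by
      intro φ
      obtain ⟨i, rfl⟩ := en_surj n φ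
      exact decide_eq_decide.mp (h2 (n, i) id)
    obtain ⟨f, hf⟩ := h n a b hab
    refine ⟨f.toEquiv, (isIso_Psi_iff R R f.toEquiv).mpr fun x y => ?_, hf⟩
    exact Bool.eq_iff_iff.mpr (f.le_iff_le (x := x) (y := y))

/-- The image of `Psi` is closed under isomorphism. -/
theorem Psi_image {R : Code} {M : Str arU} {g : Equiv.Perm ℕ} (h : IsIso (Psi R) M g) :
    M = Psi (red M) ∧ IsIso (Psi R) (Psi (red M)) g := by
  have h1 : ∀ a b, red M (g a) (g b) = R a b := by
    intro a b
    have h2 := isIso_red h a b
    rwa [red_Psi] at h2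
  have h3 : IsIso (Psi R) (Psi (red M)) g := (isIso_Psi_iff _ _ _).mpr h1
  refine ⟨?_, h3⟩
  funext p x
  have h4 := h p fun j => g.symm (x j)
  have h5 := h3 p fun j => g.symm (x j)
  simp only [Equiv.apply_symm_apply] at h4 h5
  exact h4.trans h5.symm

end Pool.Agent.Work.MP_f1d084_lc
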