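import Mathlib

set_option autoImplicit false

namespace Pool.Agent.Work.MP_f1d084_lc

/-- The data of one of the two embeddings in the Cantor-Bernstein argument: `f` maps the invariant
set `A` to the invariant set `B` and reduces `r` to `t`, and `f'` is an inverse on the saturation
of the image, which is measurable. -/
structure Emb {X Y : Type} [MeasurableSpace X] [MeasurableSpace Y] (r : X → X → Prop)
    (t : Y → Y → Prop) (A : Set X) (B : Set Y) (f : X → Y) (f' : Y → X) : Prop where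
  mf : Measurable f
  mf' : Measurable f'
  maps : ∀ x ∈ A, f x ∈ B
  red : ∀ x ∈ A, ∀ x' ∈ A, (r x x' ↔ t (f x) (f x'))
  inv : ∀ x ∈ A, ∀ y, t (f x) y → f' y ∈ A ∧ r (f' y) x
  meas : MeasurableSet {y | y ∈ B ∧ f' y ∈ A ∧ t (f (f' y)) y}

section

variable {X Y : Type} [MeasurableSpace X] [MeasurableSpace Y] {r : X → X → Prop}
    {t : Y → Y → Prop} {A : Set X} {B : Set Y} {f : X → Y} {f' : Y → X} {g : Y → X} {g' : X → Y}

/-- The saturation of the image. -/
def Sat (t : Y → Y → Prop) (A : Set X) (B : Set Y) (f : X → Y) (f' : Y → X) : Set Y :=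
  {y | y ∈ B ∧ f' y ∈ A ∧ t (f (f' y)) y}

theorem Emb.sat_inv (h : Emb r t A B f f') (hr : Equivalence r) (ht : Equivalence t)
    (hB : ∀ y ∈ B, ∀ y', t y y' → y' ∈ B) {y y' : Y} (hy : y ∈ Sat t A B f f') (hyy : t y y') :
    y' ∈ Sat t A B f f' ∧ r (f' y) (f' y') := by
  obtain ⟨h1, h2, h3⟩ := hy
  obtain ⟨h4, h5⟩ := h.inv _ h2 y' (ht.trans h3 hyy)
  have h6 : t (f (f' y')) (f (f' y)) := (h.red _ h4 _ h2).mp h5
  exact ⟨⟨hB y h1 y' hyy, h4, ht.trans h6 (ht.trans h3 hyy)⟩, hr.symm h5⟩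

theorem Emb.image (h : Emb r t A B f f') (ht : Equivalence t) {x : X}
    (hx : x ∈ A) : f x ∈ Sat t A B f f' ∧ r (f' (f x)) x := by
  obtain ⟨h4, h5⟩ := h.inv x hx (f x) (ht.refl _)
  exact ⟨⟨h.maps x hx, h4, (h.red _ h4 _ hx).mp h5⟩, h5⟩

/-- The stages. -/
def Stg (r : X → X → Prop) (t : Y → Y → Prop) (A : Set X) (B : Set Y) (f : X → Y) (f' : Y → X)
    (g : Y → X) (g' : X → Y) : ℕ → Set X
  | 0 => A \ Sat r B A g g'
  | n + 1 => {x | x ∈ Sat r B A g g' ∧ g' x ∈ Sat t A B f f' ∧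
      f' (g' x) ∈ Stg r t A B f f' g g' n}

/-- **Cantor-Bernstein** for equivalence relations and measurable maps. -/
theorem cantor_bernstein (hr : Equivalence r) (ht : Equivalence t) (mA : MeasurableSet A)
    (hA : ∀ x ∈ A, ∀ x', r x x' → x' ∈ A) (hB : ∀ y ∈ B, ∀ y', t y y' → y' ∈ B)
    (hf : Emb r t A B f f') (hg : Emb t r B A g g') :
    ∃ (F : X → Y) (G : Y → X), Measurable F ∧ Measurable G ∧ (∀ x ∈ A, F x ∈ B) ∧
      (∀ y ∈ B, G y ∈ A) ∧ (∀ x ∈ A, ∀ x' ∈ A, (r x x' ↔ t (F x) (F x'))) ∧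
      (∀ y ∈ B, ∀ y' ∈ B, (t y y' ↔ r (G y) (G y'))) ∧
      (∀ x ∈ A, r (G (F x)) x) ∧ (∀ y ∈ B, t (F (G y)) y) := by
  classical
  set St := Stg r t A B f f' g g' with hSt
  have hsub : ∀ n, St n ⊆ A := by
    intro n x hx
    cases n with
    | zero => exact hx.1
    | succ n => exact hx.1.1
  have hinv : ∀ n x x', x ∈ St n → r x x' → x' ∈ St n := by
    intro n
    induction n with
    | zero =>
      intro x x' hx hxx
      refine ⟨hA x hx.1 x' hxx, fun h1 => hx.2 ?_⟩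
      exact (hg.sat_inv ht hr hA h1 (hr.symm hxx)).1
    | succ n ih =>
      intro x x' hx hxx
      obtain ⟨h1, h2, h3⟩ := hx
      obtain ⟨h4, h5⟩ := hg.sat_inv ht hr hA h1 hxx
      obtain ⟨h6, h7⟩ := hf.sat_inv hr ht hB h2 h5
      exact ⟨h4, h6, ih _ _ h3 h7⟩
  have hmeas : ∀ n, MeasurableSet (St n) := by
    intro n
    induction n with
    | zero => exact mA.diff hg.meas
    | succ n ih => exact hg.meas.inter (hg.mf' (hf.meas.inter (hf.mf' ih)))
  set C : Set X := ⋃ n, St n with hC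
  have hCm : MeasurableSet C := MeasurableSet.iUnion hmeas
  have hCA : C ⊆ A := Set.iUnion_subset hsub
  have hCi : ∀ x x', x ∈ C → r x x' → x' ∈ C := by
    intro x x' hx hxx
    obtain ⟨n, hn⟩ := Set.mem_iUnion.mp hx
    exact Set.mem_iUnion.mpr ⟨n, hinv n x x' hn hxx⟩
  set D : Set Y := Sat t A B f f' ∩ f' ⁻¹' C with hD
  have hDm : MeasurableSet D := hf.meas.inter (hf.mf' hCm)
  have hDi : ∀ y y', y ∈ D → t y y' → y' ∈ D := by
    intro y y' hy hyy
    obtain ⟨h6, h7⟩ := hf.sat_inv hr ht hB hy.1 hyy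
    exact ⟨h6, hCi _ _ hy.2 h7⟩
  have hCs : ∀ x ∈ A, x ∉ C → x ∈ Sat r B A g g' := by
    intro x hx hxC
    by_contra h1
    exact hxC (Set.mem_iUnion.mpr ⟨0, hx, h1⟩)
  have h1 : ∀ x ∈ C, f x ∈ D := by
    intro x hx
    obtain ⟨h2, h3⟩ := hf.image ht (hCA hx)
    exact ⟨h2, hCi _ _ hx (hr.symm h3)⟩
  have h2 : ∀ x ∈ A, x ∉ C → g' x ∉ D := by
    intro x hx hxC hD'
    obtain ⟨n, hn⟩ := Set.mem_iUnion.mp hD'.2
    exact hxC (Set.mem_iUnion.mpr ⟨n + 1, hCs x hx hxC, hD'.1, hn⟩)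
  have h3 : ∀ y ∈ B, y ∉ D → g y ∉ C := by
    intro y hy hyD hC'
    obtain ⟨h4, h5⟩ := hg.image hr hy
    obtain ⟨n, hn⟩ := Set.mem_iUnion.mp hC'
    cases n with
    | zero => exact hn.2 h4
    | succ n =>
      obtain ⟨-, h6, h7⟩ := hn
      obtain ⟨h8, h9⟩ := hf.sat_inv hr ht hB h6 h5
      exact hyD ⟨h8, Set.mem_iUnion.mpr ⟨n, hinv n _ _ h7 h9⟩⟩
  refine ⟨fun x => if x ∈ C then f x else g' x, fun y => if y ∈ D then f' y else g y,
    Measurable.ite hCm hf.mf hg.mf', Measurable.ite hDm hf.mf' hg.mf, ?_⟩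
  have hF : ∀ x ∈ A, ∀ x' ∈ A, (r x x' ↔ t (if x ∈ C then f x else g' x)
      (if x' ∈ C then f x' else g' x')) := by
    intro x hx x' hx'
    by_cases hxC : x ∈ C <;> by_cases hxC' : x' ∈ C
    · rw [if_pos hxC, if_pos hxC']
      exact hf.red x hx x' hx'
    · rw [if_pos hxC, if_neg hxC']
      refine iff_of_false (fun h => hxC' (hCi _ _ hxC h)) fun h => ?_
      exact h2 x' hx' hxC' (hDi _ _ (h1 x hxC) h)
    · rw [if_neg hxC, if_pos hxC']
      refine iff_of_false (fun h => hxC (hCi _ _ hxC' (hr.symm h))) fun h => ?_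
      exact h2 x hx hxC (hDi _ _ (h1 x' hxC') (ht.symm h))
    · rw [if_neg hxC, if_neg hxC']
      have h4 := hCs x hx hxC
      have h5 := hCs x' hx' hxC'
      constructor
      · intro h
        exact (hg.sat_inv ht hr hA h4 h).2
      · intro h
        have h6 := (hg.red _ h4.2.1 _ h5.2.1).mp h
        exact hr.trans (hr.symm h4.2.2) (hr.trans h6 h5.2.2)
  have hGA : ∀ y ∈ B, (if y ∈ D then f' y else g y) ∈ A := by
    intro y hy
    by_cases hyD : y ∈ D
    · rw [if_pos hyD]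
      exact hCA hyD.2
    · rw [if_neg hyD]
      exact hg.maps y hy
  have hFG : ∀ y ∈ B, t (if (if y ∈ D then f' y else g y) ∈ C then f (if y ∈ D then f' y else g y)
      else g' (if y ∈ D then f' y else g y)) y := by
    intro y hy
    by_cases hyD : y ∈ D
    · simp only [if_pos hyD]
      have h4 : f' y ∈ C := hyD.2
      rw [if_pos h4]
      exact hyD.1.2.2
    · simp only [if_neg hyD]
      rw [if_neg (h3 y hy hyD)]
      exact (hg.image hr hy).2
  refine ⟨?_, hGA, hF, ?_, ?_, hFG⟩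
  · intro x hx
    change (if x ∈ C then f x else g' x) ∈ B
    by_cases hxC : x ∈ C
    · rw [if_pos hxC]
      exact hf.maps x hx
    · rw [if_neg hxC]
      exact (hCs x hx hxC).2.1
  · intro y hy y' hy'
    have h4 := hF _ (hGA y hy) _ (hGA y' hy')
    refine Iff.trans ?_ h4.symm
    constructor
    · intro h
      exact ht.trans (hFG y hy) (ht.trans h (ht.symm (hFG y' hy')))
    · intro h
      exact ht.trans (ht.symm (hFG y hy)) (ht.trans h (hFG y' hy'))
  · intro x hx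
    change r (if (if x ∈ C then f x else g' x) ∈ D then f' (if x ∈ C then f x else g' x)
      else g (if x ∈ C then f x else g' x)) x
    by_cases hxC : x ∈ C
    · simp only [if_pos hxC]
      rw [if_pos (h1 x hxC)]
      exact (hf.image ht hx).2
    · simp only [if_neg hxC]
      rw [if_neg (h2 x hx hxC)]
      exact (hCs x hx hxC).2.2

end

end Pool.Agent.Work.MP_f1d084_lc
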