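import Mathlib
import Pool.Agent.Work.MP_f1d084_lc.Uni6
import Pool.Agent.Work.MP_f1d084_lc.B.Psi

set_option autoImplicit false

namespace Pool.Agent.Work.MP_f1d084_lc

open FirstOrder

open Pool.Agent.Work.MP_f1d084_lc.GE

/-- The numbering of the symbols of the universal language. -/
noncomputable def eU : ℕ × ℕ → ℕ := (exists_colr arU).choose

/-- The colouring of the lists attached to a structure. -/
noncomputable def cU : Str arU → List ℕ → ℕ := (exists_colr arU).choose_spec.choose

theorem cU_cont (s : List ℕ) : Continuous fun M => cU M s :=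
  (exists_colr arU).choose_spec.choose_spec.1 s

theorem cU_iff (M N : Str arU) (s t : List ℕ) : cU M s = cU N t ↔ s.length = t.length ∧
    ∀ i, eU i < s.length → ∀ h : Fin (arU i) → Fin s.length,
      M i (fun j => s.getD (h j).1 0) = N i (fun j => t.getD (h j).1 0) :=
  (exists_colr arU).choose_spec.choose_spec.2 M N s t

/-- The poset of height two of a structure. -/
noncomputable def Phi (M : Str arU) : Code := fcode (cU M)

theorem continuous_Phi : Continuous Phi := continuous_bcode.comp (continuous_gcode cU cU_cont)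

theorem Phi_po (M : Str arU) : IsPO (Phi M) := isPO_fcode _

theorem Phi_height (M : Str arU) (a b d : OfCode (Phi M)) (h1 : a ≤ b) (h2 : b ≤ d) :
    a = b ∨ b = d := height_fcode _ a b d h1 h2

theorem Phi_EH {M : Str arU} (hM : UH M) : Phi M ∈ EH :=
  ⟨Phi_po M, elemHomog_fcode (elemHomog_of_UH M eU (fun s t h => (cU_iff M M s t).mp h)
      (fun g hg => pres_of_isIso M M eU (fun s t => cU_iff M M s t) g hg) hM)⟩

theorem Phi_iff (M N : Str arU) (g : Equiv.Perm ℕ) : IsIso M N g ↔
    ∃ f : OfCode (Phi M) ≃o OfCode (Phi N), ∀ x, f (iota x) = iota (g x) := by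
  constructor
  · intro hg
    exact ⟨_, f_iota g (pres_of_isIso M N eU (fun s t => cU_iff M N s t) g hg)⟩
  · rintro ⟨f, hf⟩
    obtain ⟨g', h', rfl⟩ := f_iso f
    have h1 : g = g' := by
      ext x
      exact iota_injective ((hf x).symm.trans (f_iota g' h' x))
    rw [h1]
    exact isIso_of_pres M N eU (fun s t => cU_iff M N s t) g' h'

theorem Phi_all (M N : Str arU) (f : OfCode (Phi M) ≃o OfCode (Phi N)) :
    ∃ g : Equiv.Perm ℕ, ∀ x, f (iota x) = iota (g x) := by
  obtain ⟨g, h, rfl⟩ := f_iso f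
  exact ⟨g, f_iota g h⟩

theorem Phi_fin (M : Str arU) (p : OfCode (Phi M)) : ∃ F : Finset ℕ,
    ∀ (N : Str arU) (f f' : OfCode (Phi M) ≃o OfCode (Phi N)),
      (∀ x ∈ F, f (iota x) = f' (iota x)) → f p = f' p := by
  obtain ⟨F, hF⟩ := f_agree (cU M) p
  exact ⟨F, fun N f f' => hF (cU N) f f'⟩

/-- `u` is a base point. -/
def bs (P : Type) [LE P] (u : P) : Prop :=
  mn P u ∧ ∀ w : P, mn P w → ple P w u → ple P u w

theorem isFO_bs {α : Type} (i : α) : IsFO (fun (P : Type) [LE P] (v : α → P) => bs P (v i)) :=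
  (isFO_mn i).and (IsFO.all (Q := fun P _ v => mn P (v (Sum.inr ())) →
    ple P (v (Sum.inr ())) (v (Sum.inl i)) → ple P (v (Sum.inl i)) (v (Sum.inr ())))
    ((isFO_mn _).imp ((isFO_ple _ _).imp (isFO_ple _ _))))

theorem bs_spl {c : List ℕ → ℕ} (u : Spl (GE c)) :
    bs (Spl (GE c)) u ↔ ∃ x, u = ⟨base x, false⟩ := by
  constructor
  · rintro ⟨h1, h2⟩
    obtain ⟨p, b⟩ := u
    have hb : b = false := (spl_mn _).mp h1
    subst hb
    have h3 : mn (GE c) p := by
      intro w hw
      have h4 := h2 ⟨w, false⟩ ((spl_mn _).mpr rfl) ((spl_ple _ _).mpr hw)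
      exact (spl_ple _ _).mp h4
    obtain ⟨x, rfl⟩ := (g_mn_iff p).mp h3
    exact ⟨x, rfl⟩
  · rintro ⟨x, rfl⟩
    refine ⟨(spl_mn _).mpr rfl, ?_⟩
    rintro ⟨w, b⟩ h1 h2
    have hb : b = false := (spl_mn _).mp h1
    subst hb
    rw [spl_ple] at h2 ⊢
    exact g_mn_base x w h2

theorem exists_rd (v n : ℕ) : ∃ Q : ∀ (P : Type) [LE P], (Fin n → P) → Prop, IsFO Q ∧
    ∀ (P : Type) [PartialOrder P] (a : Fin n → P),
      Q (Spl P) (fun i => ⟨a i, false⟩) ↔ cde v P ((List.finRange n).map a) := by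
  obtain ⟨φ, hφ⟩ := isFO_cde v (List.finRange n)
  obtain ⟨Q, h1, h2⟩ := transl (α := Fin n) (n := 0) φ
  refine ⟨fun P _ a => Q P (fun i => Sum.elim a (fun j : Fin 0 => j.elim0) i), ?_, ?_⟩
  · have h3 := h1.relabel (Sum.elim id (fun j : Fin 0 => j.elim0) : Fin n ⊕ Fin 0 → Fin n)
    refine h3.congr fun P _ v => ?_
    have : (fun i => v ((Sum.elim id (fun j : Fin 0 => j.elim0) : Fin n ⊕ Fin 0 → Fin n) i)) =
        fun i => (Sum.elim v (fun j : Fin 0 => j.elim0) : Fin n ⊕ Fin 0 → P) i := by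
      funext i
      rcases i with i | i
      · rfl
      · exact i.elim0
    rw [this]
  · intro P _ a
    have h3 := h2 P a (fun j : Fin 0 => j.elim0)
    have h4 : (fun i : Fin n ⊕ Fin 0 => (⟨Sum.elim a
        (fun j : Fin 0 => j.elim0) i, false⟩ : Spl P)) =
        fun i => Sum.elim (fun j => (⟨a j, false⟩ : Spl P)) (fun j : Fin 0 => j.elim0) i := by
      funext i
      rcases i with i | i
      · rfl
      · exact i.elim0
    rw [h4] at h3
    have h5 : (fun j : Fin 0 => (j.elim0 : P)) = default := Subsingleton.elim _ _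
    rw [h5] at h3
    exact h3.trans (hφ P a)

/-- The colour of a tuple of base points is `v`. -/
noncomputable def rd (v n : ℕ) : ∀ (P : Type) [LE P], (Fin n → P) → Prop := (exists_rd v n).choose

theorem rd_fo (v n : ℕ) : IsFO (rd v n) := (exists_rd v n).choose_spec.1

theorem rd_base {c : List ℕ → ℕ} (v n : ℕ) (t : Fin n → ℕ) :
    rd v n (Spl (GE c)) (fun i => ⟨base (t i), false⟩) ↔
      ((List.ofFn t).Nodup ∧ List.ofFn t ≠ []) ∧ v = c (List.ofFn t) := by
  have h1 := (exists_rd v n).choose_spec.2 (GE c) fun i => base (t i)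
  refine Iff.trans h1 ?_
  rw [g_cde_iff]
  have h2 : (List.finRange n).map (fun i => (base (t i) : GE c)) = (List.ofFn t).map base := by
    rw [List.map_ofFn, List.ofFn_eq_map]
    rfl
  rw [h2]
  constructor
  · rintro ⟨s, hs, h3, h4⟩
    have h5 : List.ofFn t = s := (List.map_injective_iff.mpr fun x y h => by injection h) h3
    rw [h5]
    exact ⟨hs, h4⟩
  · rintro ⟨h3, h4⟩
    exact ⟨_, h3, rfl, h4⟩

/-- The enumeration of the base points. -/
noncomputable def uu (R : Code) (x : ℕ) : ℕ := Nat.nth (fun n => bs (OfCode R) n) x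

/-- The colour `v` of a tuple of length `n` says that the relation `i` holds at the positions
`h`. -/
def Says (v n : ℕ) (i : ℕ × ℕ) (h : Fin (arU i) → Fin n) : Prop :=
  ∃ (M : Str arU) (s : List ℕ), cU M s = v ∧ s.length = n ∧ eU i < n ∧
    M i (fun j => s.getD (h j).1 0) = true

open Classical in
/-- The structure which is read off from a poset. -/
noncomputable def Del (R : Code) : Str arU := fun i x =>
  decide (∃ (n : ℕ) (s : Fin n → ℕ) (h : Fin (arU i) → Fin n) (v : ℕ), Says v n i h ∧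
    (∀ k, bs (OfCode R) (s k)) ∧ rd v n (OfCode R) s ∧ ∀ j, s (h j) = uu R (x j))

theorem del_iff (R : Code) (i : ℕ × ℕ) (x : Fin (arU i) → ℕ) : Del R i x = true ↔
    ∃ (n : ℕ) (s : Fin n → ℕ) (h : Fin (arU i) → Fin n) (v : ℕ), Says v n i h ∧
    (∀ k, bs (OfCode R) (s k)) ∧ rd v n (OfCode R) s ∧ ∀ j, s (h j) = uu R (x j) := by
  classical
  exact decide_eq_true_iff

theorem isFO_iso {n : ℕ} {Q : ∀ (P : Type) [LE P], (Fin n → P) → Prop} (h : IsFO Q) {P T : Type}
    [LE P] [LE T] (f : P ≃o T) (a : Fin n → P) : Q P a ↔ Q T (fun i => f (a i)) :=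
  h.iff (SameType.of_iso f a)

theorem bs_iso {P T : Type} [LE P] [LE T] (f : P ≃o T) (a : P) : bs P a ↔ bs T (f a) :=
  isFO_iso (isFO_bs (0 : Fin 1)) f (fun _ => a)

/-- **Decoding.** -/
theorem decode (M : Str arU) (R : Code) (f : OfCode R ≃o OfCode (Phi M)) :
    ∃ h : Equiv.Perm ℕ, (∀ x, f (uu R x) = iota (h x)) ∧ IsIso (Del R) M h := by
  classical
  -- the isomorphism to the split
  let F : OfCode R ≃o Spl (GE (cU M)) := f.trans (fIso (cU M))
  have hF : ∀ (n : OfCode R) (y : ℕ), F n = ⟨base y, false⟩ ↔ f n = iota y := by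
    intro n y
    rw [← fIso_iota (cU M) y]
    change fIso (cU M) (f n) = fIso (cU M) (iota y) ↔ _
    exact (fIso (cU M)).injective.eq_iff
  have hb : ∀ n : OfCode R, bs (OfCode R) n ↔ ∃ y, F n = ⟨base y, false⟩ := by
    intro n
    rw [bs_iso F n, bs_spl]
  -- every base point is hit
  have hs : ∀ y : ℕ, ∃ n : OfCode R, F n = ⟨base y, false⟩ := fun y =>
    ⟨F.symm ⟨base y, false⟩, F.apply_symm_apply _⟩
  choose q hq using hs
  have hqinj : Function.Injective q := by
    intro y z h
    have h1 := hq y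
    rw [h, hq z] at h1
    have h2 := congrArg Spl.pt h1
    exact (base_inj h2).symm
  have hinf : (Set.ofPred fun n : ℕ => bs (OfCode R) n).Infinite :=
    Set.infinite_of_injective_forall_mem (f := fun y => (q y : ℕ)) hqinj
      fun y => (hb (q y)).mpr ⟨y, hq y⟩
  have hu : ∀ x, bs (OfCode R) (uu R x) := fun x => Nat.nth_mem_of_infinite hinf x
  have huinj : Function.Injective (uu R) := Nat.nth_injective hinf
  have husurj : ∀ n : ℕ, bs (OfCode R) n → ∃ x, uu R x = n := fun n hn =>
    ⟨Nat.count (fun n => bs (OfCode R) n) n, Nat.nth_count hn⟩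
  have hg : ∀ x, ∃ y, F (uu R x) = ⟨base y, false⟩ := fun x => (hb _).mp (hu x)
  choose g hg using hg
  have hgb : Function.Bijective g := by
    constructor
    · intro x y h
      have h1 := hg x
      rw [h, ← hg y] at h1
      exact huinj (F.injective h1)
    · intro y
      obtain ⟨x, hx⟩ := husurj (q y) ((hb (q y)).mpr ⟨y, hq y⟩)
      refine ⟨x, ?_⟩
      have h1 := hg x
      rw [hx, hq y] at h1
      exact (base_inj (congrArg Spl.pt h1)).symm
  refine ⟨Equiv.ofBijective g hgb, fun x => (hF _ _).mp (hg x), ?_⟩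
  intro i x
  change M i (fun j => g (x j)) = Del R i x
  rw [Bool.eq_iff_iff, del_iff]
  constructor
  · intro hM
    set L : List ℕ := (List.ofFn fun j => g (x j)).dedup with hL
    have hLnd : L.Nodup := List.nodup_dedup _
    have hx : ∀ j, g (x j) ∈ L := by
      intro j
      rw [hL, List.mem_dedup]
      exact List.mem_ofFn.mpr ⟨j, rfl⟩
    obtain ⟨Y, hY1, hY2⟩ := exists_long L hLnd (eU i + 1)
    have hlen : eU i < (Y ++ L).length := by rw [List.length_append, hY1]; omega
    have hne : Y ++ L ≠ [] := by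
      intro h
      rw [h] at hlen
      simp at hlen
    have h3 : ∀ j, ∃ p : Fin (Y ++ L).length, (Y ++ L).get p = g (x j) := fun j =>
      List.get_of_mem (List.mem_append_right _ (hx j))
    choose p hp using h3
    have hof : List.ofFn (Y ++ L).get = Y ++ L := List.ofFn_get _
    refine ⟨(Y ++ L).length, fun k => q ((Y ++ L).get k), p, cU M (Y ++ L),
      ⟨M, Y ++ L, rfl, rfl, hlen, ?_⟩, fun k => (hb _).mpr ⟨_, hq _⟩, ?_, fun j => ?_⟩
    · have h5 : (fun j => (Y ++ L).getD (p j).1 0) = fun j => g (x j) := by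
        funext j
        rw [List.getD_eq_getElem _ _ (p j).2]
        exact hp j
      rw [h5]
      exact hM
    · refine (isFO_iso (rd_fo _ _) F _).mpr ?_
      have h6 : (fun k => F (q ((Y ++ L).get k))) =
          fun k => (⟨base ((Y ++ L).get k), false⟩ : Spl (GE (cU M))) := by
        funext k
        exact hq _
      rw [h6, rd_base, hof]
      exact ⟨⟨hY2, hne⟩, rfl⟩
    · apply F.injective
      change F (q ((Y ++ L).get (p j))) = F (uu R (x j))
      rw [hp, hq, hg]
  · rintro ⟨n, s, h, v, ⟨M', s', h1, h2, h3, h4⟩, h5, h6, h7⟩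
    have h8 : ∀ k, ∃ y, F (s k) = ⟨base y, false⟩ := fun k => (hb _).mp (h5 k)
    choose t ht using h8
    have h9 := (isFO_iso (rd_fo v n) F s).mp h6
    have h10 : (fun k => F (s k)) = fun k => (⟨base (t k), false⟩ : Spl (GE (cU M))) := by
      funext k
      exact ht k
    rw [h10, rd_base] at h9
    obtain ⟨-, h11⟩ := h9
    have h12 : cU M' s' = cU M (List.ofFn t) := h1.trans h11
    rw [cU_iff] at h12
    subst h2
    have h13 := h12.2 i h3 h
    rw [h4] at h13
    have h14 : (fun j => (List.ofFn t).getD (h j).1 0) = fun j => g (x j) := by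
      funext j
      rw [List.getD_eq_getElem _ _ (by simp), List.getElem_ofFn]
      have h15 := ht (h j)
      rw [h7 j, hg] at h15
      exact (base_inj (congrArg Spl.pt h15)).symm
    rw [h14] at h13
    exact h13.symm

end Pool.Agent.Work.MP_f1d084_lc
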