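import Mathlib
import Pool.Agent.Work.MP_f1d084_lc.B.Dec

set_option autoImplicit false

namespace Pool.Agent.Work.MP_f1d084_lc

open FirstOrder

theorem meas_isFO {n : ℕ} {Q : ∀ (P : Type) [LE P], (Fin n → P) → Prop} (h : IsFO Q)
    (a : Fin n → ℕ) : MeasurableSet {R : Code | Q (OfCode R) a} := by
  obtain ⟨φ, hφ⟩ := h
  have : {R : Code | Q (OfCode R) a} =
      {R : Code | @Language.Formula.Realize _ ℕ (strOf R) _ φ a} := by
    ext R
    exact (hφ (OfCode R) a).symm
  rw [this]
  exact meas_formula φ a

theorem meas_bs (n : ℕ) : MeasurableSet {R : Code | bs (OfCode R) n} :=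
  meas_isFO (isFO_bs (0 : Fin 1)) fun _ => n

theorem nth_iff (p : ℕ → Prop) [DecidablePred p] (a n : ℕ) : Nat.nth p a = n ↔
    (p n ∧ Nat.count p n = a) ∨ (n = 0 ∧ ∀ m, ¬ (p m ∧ Nat.count p m = a)) := by
  by_cases h : ∃ m, p m ∧ Nat.count p m = a
  · obtain ⟨m, hm, rfl⟩ := h
    rw [Nat.nth_count hm]
    constructor
    · rintro rfl
      exact Or.inl ⟨hm, rfl⟩
    · rintro (⟨h1, h2⟩ | ⟨-, h2⟩)
      · exact Nat.count_injective hm h1 h2.symm
      · exact absurd ⟨hm, rfl⟩ (h2 m)
  · push Not at h
    have h0 : Nat.nth p a = 0 := by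
      by_contra h1
      have h2 : ∀ hf : (Set.ofPred p).Finite, a < hf.toFinset.card := by
        intro hf
        by_contra h3
        exact h1 (Nat.nth_of_card_le hf (not_lt.mp h3))
      exact h _ (Nat.nth_mem a h2) (Nat.count_nth h2)
    rw [h0]
    constructor
    · rintro rfl
      exact Or.inr ⟨rfl, fun m hm => h m hm.1 hm.2⟩
    · rintro (⟨h1, h2⟩ | ⟨h1, -⟩)
      · exact absurd h2 (h n h1)
      · exact h1.symm

theorem measurable_nth {X : Type} [MeasurableSpace X] (D : X → ℕ → Prop)
    (hD : ∀ n, MeasurableSet {x | D x n}) (a : ℕ) : Measurable fun x => Nat.nth (D x) a := by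
  classical
  have hc : ∀ n, Measurable fun x => Nat.count (D x) n := by
    intro n
    induction n with
    | zero =>
      have : (fun x => Nat.count (D x) 0) = fun _ => 0 := by
        funext x
        exact Nat.count_zero _
      rw [this]
      exact measurable_const
    | succ n ih =>
      have : (fun x => Nat.count (D x) (n + 1)) =
          fun x => Nat.count (D x) n + if D x n then 1 else 0 := by
        funext x
        rw [Nat.count_succ]
      rw [this]
      exact ih.add (Measurable.ite (hD n) measurable_const measurable_const)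
  refine measurable_to_countable' fun n => ?_
  have : (fun x => Nat.nth (D x) a) ⁻¹' {n} =
      ({x | D x n} ∩ {x | Nat.count (D x) n = a}) ∪
        ({_x : X | n = 0} ∩ ⋂ m : ℕ, ({x | D x m} ∩ {x | Nat.count (D x) m = a})ᶜ) := by
    ext x
    simp only [Set.mem_preimage, Set.mem_singleton_iff, Set.mem_union, Set.mem_inter_iff,
      Set.mem_ofPred_eq, Set.mem_iInter, Set.mem_compl_iff]
    exact nth_iff (D x) a n
  rw [this]
  have h1 : ∀ m, MeasurableSet {x | Nat.count (D x) m = a} := fun m =>
    hc m (measurableSet_singleton a)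
  exact ((hD n).inter (h1 n)).union ((MeasurableSet.const _).inter
    (MeasurableSet.iInter fun m => ((hD m).inter (h1 m)).compl))

theorem measurable_uu_apply (x : ℕ) : Measurable fun R : Code => uu R x :=
  measurable_nth (fun (R : Code) (n : ℕ) => bs (OfCode R) n) meas_bs x

theorem measurable_uu : Measurable uu := measurable_pi_lambda _ measurable_uu_apply

theorem measurable_Del : Measurable Del := by
  classical
  refine measurable_pi_lambda _ fun i => measurable_pi_lambda _ fun x => ?_
  refine measurable_to_bool ?_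
  have : (fun R : Code => Del R i x) ⁻¹' {true} =
      ⋃ (n : ℕ), ⋃ (s : Fin n → ℕ), ⋃ (h : Fin (arU i) → Fin n), ⋃ (v : ℕ),
        {_R : Code | Says v n i h} ∩ ((⋂ k, {R : Code | bs (OfCode R) (s k)}) ∩
          ({R : Code | rd v n (OfCode R) s} ∩ ⋂ j, {R : Code | s (h j) = uu R (x j)})) := by
    ext R
    simp only [Set.mem_preimage, Set.mem_singleton_iff, del_iff, Set.mem_iUnion,
      Set.mem_inter_iff, Set.mem_ofPred_eq, Set.mem_iInter]
  rw [this]
  refine MeasurableSet.iUnion fun n => MeasurableSet.iUnion fun s => MeasurableSet.iUnion fun h =>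
    MeasurableSet.iUnion fun v => ?_
  refine (MeasurableSet.const _).inter ((MeasurableSet.iInter fun k => meas_bs _).inter
    ((meas_isFO (rd_fo v n) s).inter (MeasurableSet.iInter fun j => ?_)))
  have h1 : {R : Code | s (h j) = uu R (x j)} = (fun R : Code => uu R (x j)) ⁻¹' {s (h j)} := by
    ext R
    simp only [Set.mem_ofPred_eq, Set.mem_preimage, Set.mem_singleton_iff]
    exact eq_comm
  rw [h1]
  exact measurable_uu_apply _ (measurableSet_singleton _)

end Pool.Agent.Work.MP_f1d084_lc
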