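import Mathlib
import Pool.Agent.Work.MP_f1d084_lc.B.Meas

set_option autoImplicit false

namespace Pool.Agent.Work.MP_f1d084_lc

open FirstOrder

section dec

variable {R S : Code} {M N : Str arU}

theorem dec_iff (ρ : OfCode R ≃o OfCode (Phi M)) (σ : OfCode S ≃o OfCode (Phi N))
    (g : Equiv.Perm ℕ) : IsIso (Del R) (Del S) g ↔
      ∃ f : OfCode R ≃o OfCode S, ∀ x, f (uu R x) = uu S (g x) := by
  obtain ⟨h, h1, h2⟩ := decode M R ρ
  obtain ⟨k, k1, k2⟩ := decode N S σ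
  constructor
  · intro hg
    have h3 : IsIso M N ((h.symm.trans g).trans k) := (h2.symm.trans hg).trans k2
    obtain ⟨f, hf⟩ := (Phi_iff M N _).mp h3
    refine ⟨ρ.trans (f.trans σ.symm), fun x => ?_⟩
    change σ.symm (f (ρ (uu R x))) = _
    rw [h1, hf, OrderIso.symm_apply_eq, k1]
    simp
  · rintro ⟨f, hf⟩
    have h3 : IsIso M N ((h.symm.trans g).trans k) := by
      refine (Phi_iff M N _).mpr ⟨ρ.symm.trans (f.trans σ), fun x => ?_⟩
      change σ (f (ρ.symm (iota x))) = _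
      have h4 : ρ.symm (iota x) = uu R (h.symm x) := by
        rw [OrderIso.symm_apply_eq, h1, Equiv.apply_symm_apply]
      rw [h4, hf, k1]
      rfl
    have h5 := (h2.trans h3).trans k2.symm
    have h6 : (h.trans ((h.symm.trans g).trans k)).trans k.symm = g := by
      ext x
      simp
    rw [h6] at h5
    exact h5

theorem dec_all (ρ : OfCode R ≃o OfCode (Phi M)) (σ : OfCode S ≃o OfCode (Phi N))
    (f : OfCode R ≃o OfCode S) : ∃ g : Equiv.Perm ℕ, ∀ x, f (uu R x) = uu S (g x) := by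
  obtain ⟨h, h1, h2⟩ := decode M R ρ
  obtain ⟨k, k1, k2⟩ := decode N S σ
  obtain ⟨g, hg⟩ := Phi_all M N (ρ.symm.trans (f.trans σ))
  refine ⟨(h.trans g).trans k.symm, fun x => ?_⟩
  apply σ.injective
  rw [k1]
  have h3 := hg (h x)
  have h4 : ρ.symm (iota (h x)) = uu R x := by
    rw [OrderIso.symm_apply_eq, h1]
  change σ (f (ρ.symm (iota (h x)))) = _ at h3
  rw [h4] at h3
  rw [h3]
  simp

theorem dec_fin (ρ : OfCode R ≃o OfCode (Phi M)) (p : OfCode R) : ∃ K : Finset ℕ,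
    ∀ (S : Code) (f f' : OfCode R ≃o OfCode S),
      (∀ x ∈ K, f (uu R x) = f' (uu R x)) → f p = f' p := by
  classical
  obtain ⟨h, h1, h2⟩ := decode M R ρ
  obtain ⟨K, hK⟩ := Phi_fin M (ρ p)
  refine ⟨K.image h.symm, fun S f f' hf => ?_⟩
  have h3 := hK M (ρ.symm.trans (f.trans (f.symm.trans ρ))) (ρ.symm.trans (f'.trans (f.symm.trans ρ)))
    (by
      intro x hx
      have h4 : ρ.symm (iota x) = uu R (h.symm x) := by
        rw [OrderIso.symm_apply_eq, h1, Equiv.apply_symm_apply]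
      change ρ (f.symm (f (ρ.symm (iota x)))) = ρ (f.symm (f' (ρ.symm (iota x))))
      rw [h4, hf _ (Finset.mem_image_of_mem _ hx)])
  have h5 : ρ (f.symm (f (ρ.symm (ρ p)))) = ρ (f.symm (f' (ρ.symm (ρ p)))) := h3
  have h6 := f.symm.injective (ρ.injective h5)
  rwa [ρ.symm_apply_apply] at h6

theorem dec_inj (ρ : OfCode R ≃o OfCode (Phi M)) : Function.Injective (uu R) := by
  obtain ⟨h, h1, h2⟩ := decode M R ρ
  intro x y hxy
  have h3 := h1 x
  rw [hxy, h1 y] at h3
  exact (h.injective (iota_injective h3)).symm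

end dec

/-- A Borel isomorphism-invariant class of elementarily homogeneous posets which contains the
ones of height at most two. -/
structure Cls (E : Set Code) : Prop where
  sub : E ⊆ EH
  meas : MeasurableSet E
  inv : ∀ R ∈ E, ∀ S, Nonempty (OfCode R ≃o OfCode S) → S ∈ E
  two : ∀ R ∈ EH, (∀ a b d : OfCode R, a ≤ b → b ≤ d → a = b ∨ b = d) → R ∈ E

/-- The posets which come from ultrahomogeneous structures. -/
def A1 (E : Set Code) : Set Code :=
  {R | R ∈ E ∧ UH (Del R) ∧ Nonempty (OfCode R ≃o OfCode (Phi (Del R)))}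

theorem mem_A1 {E : Set Code} {R : Code} {M : Str arU} (hR : R ∈ E) (hM : UH M)
    (ρ : OfCode R ≃o OfCode (Phi M)) : R ∈ A1 E := by
  obtain ⟨h, h1, h2⟩ := decode M R ρ
  obtain ⟨f, -⟩ := (Phi_iff _ _ _).mp h2
  exact ⟨hR, hM.of_isIso h2.symm, ⟨ρ.trans f.symm⟩⟩

theorem A1_inv {E : Set Code} (hE : Cls E) {R S : Code} (hR : R ∈ A1 E)
    (σ : OfCode R ≃o OfCode S) : S ∈ A1 E := by
  obtain ⟨h1, h2, ⟨ρ⟩⟩ := hR
  exact mem_A1 (hE.inv R h1 S ⟨σ⟩) h2 (σ.symm.trans ρ)

/-- The stages of the Cantor-Bernstein argument. -/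
def Cn (E : Set Code) : ℕ → Set Code
  | 0 => E \ A1 E
  | n + 1 => {R | R ∈ A1 E ∧ Del R = Psi (red (Del R)) ∧ red (Del R) ∈ Cn E n}

/-- The invariant set on which the expansion by definable relations is used. -/
def CC (E : Set Code) : Set Code := {R | ∃ n, R ∈ Cn E n}

theorem Cn_sub {E : Set Code} (n : ℕ) : Cn E n ⊆ E := by
  intro R hR
  cases n with
  | zero => exact hR.1
  | succ n => exact hR.1.1

theorem CC_sub {E : Set Code} : CC E ⊆ E := by
  rintro R ⟨n, hR⟩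
  exact Cn_sub n hR

theorem Cn_inv {E : Set Code} (hE : Cls E) (n : ℕ) : ∀ {R S : Code}, R ∈ Cn E n →
    (OfCode R ≃o OfCode S) → S ∈ Cn E n := by
  induction n with
  | zero =>
    intro R S hR σ
    exact ⟨hE.inv R hR.1 S ⟨σ⟩, fun hS => hR.2 (A1_inv hE hS σ.symm)⟩
  | succ n ih =>
    intro R S hR σ
    obtain ⟨h1, h2, h3⟩ := hR
    have hS := A1_inv hE h1 σ
    obtain ⟨-, -, ⟨ρ⟩⟩ := h1
    obtain ⟨k, k1, k2⟩ := decode (Del R) S (σ.symm.trans ρ)
    have k3 := k2.symm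
    rw [h2] at k3
    obtain ⟨k4, k5⟩ := Psi_image k3
    obtain ⟨f, -⟩ := (isIso_Psi_iff' _ _ _).mp k5
    exact ⟨hS, k4, ih h3 f⟩

theorem CC_inv {E : Set Code} (hE : Cls E) {R S : Code} (hR : R ∈ CC E)
    (σ : OfCode R ≃o OfCode S) : S ∈ CC E := by
  obtain ⟨n, hn⟩ := hR
  exact ⟨n, Cn_inv hE n hn σ⟩

theorem not_CC {E : Set Code} {R : Code} (hR : R ∈ E) (h : R ∉ CC E) : R ∈ A1 E := by
  by_contra h1
  exact h ⟨0, hR, h1⟩

theorem CC_of_Del {E : Set Code} {R : Code} (hR : R ∈ A1 E) (h1 : Del R = Psi (red (Del R)))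
    (h2 : red (Del R) ∈ CC E) : R ∈ CC E := by
  obtain ⟨n, hn⟩ := h2
  exact ⟨n + 1, hR, h1, hn⟩

theorem meas_str_eq {X : Type} [MeasurableSpace X] (F G : X → Str arU)
    (hF : Measurable F) (hG : Measurable G) : MeasurableSet {x | F x = G x} := by
  have : {x | F x = G x} = ⋂ (i : ℕ × ℕ), ⋂ (a : Fin (arU i) → ℕ), {x | F x i a = G x i a} := by
    ext x
    simp only [Set.mem_ofPred_eq, Set.mem_iInter]
    constructor
    · intro h i a
      rw [h]
    · intro h
      funext i a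
      exact h i a
  rw [this]
  refine MeasurableSet.iInter fun i => MeasurableSet.iInter fun a => ?_
  exact measurableSet_eq_fun ((measurable_coord i _).comp hF) ((measurable_coord i _).comp hG)

/-- Isomorphism is a Borel condition on elementarily homogeneous posets. -/
theorem meas_iso {X : Type} [MeasurableSpace X] (F G : X → Code)
    (hF : Measurable F) (hG : Measurable G) :
    MeasurableSet {x | F x ∈ EH ∧ G x ∈ EH ∧ Nonempty (OfCode (F x) ≃o OfCode (G x))} := by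
  obtain ⟨f, hf1, hf2⟩ := upper
  have : {x | F x ∈ EH ∧ G x ∈ EH ∧ Nonempty (OfCode (F x) ≃o OfCode (G x))} =
      (F ⁻¹' EH ∩ G ⁻¹' EH) ∩ ((⋂ n : ℕ, ⋃ m : ℕ, {x | f (F x) n = f (G x) m}) ∩
        (⋂ n : ℕ, ⋃ m : ℕ, {x | f (G x) n = f (F x) m})) := by
    ext x
    simp only [Set.mem_ofPred_eq, Set.mem_iInter, Set.mem_inter_iff, Set.mem_iUnion,
      Set.mem_preimage]
    constructor
    · rintro ⟨h1, h2, h3⟩
      rw [hf2 _ h1 _ h2] at h3
      refine ⟨⟨h1, h2⟩, fun n => ?_, fun n => ?_⟩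
      · have h4 : f (F x) n ∈ Set.range (f (G x)) := h3 ▸ ⟨n, rfl⟩
        obtain ⟨m, hm⟩ := h4
        exact ⟨m, hm.symm⟩
      · have h4 : f (G x) n ∈ Set.range (f (F x)) := h3.symm ▸ ⟨n, rfl⟩
        obtain ⟨m, hm⟩ := h4
        exact ⟨m, hm.symm⟩
    · rintro ⟨⟨h1, h2⟩, h3, h4⟩
      refine ⟨h1, h2, (hf2 _ h1 _ h2).mpr ?_⟩
      apply Set.Subset.antisymm
      · rintro _ ⟨n, rfl⟩
        obtain ⟨m, hm⟩ := h3 n
        exact ⟨m, hm.symm⟩
      · rintro _ ⟨n, rfl⟩
        obtain ⟨m, hm⟩ := h4 n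
        exact ⟨m, hm.symm⟩
  rw [this]
  have hm : ∀ (A B : X → Code) (_ : Measurable A) (_ : Measurable B),
      MeasurableSet (⋂ n : ℕ, ⋃ m : ℕ, {x | f (A x) n = f (B x) m}) := by
    intro A B hA hB
    refine MeasurableSet.iInter fun n => MeasurableSet.iUnion fun m => ?_
    have h1 : {x | f (A x) n = f (B x) m} = ⋂ k : ℕ, {x | f (A x) n k = f (B x) m k} := by
      ext x
      simp only [Set.mem_ofPred_eq, Set.mem_iInter]
      exact funext_iff
    rw [h1]
    refine MeasurableSet.iInter fun k => ?_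
    have hk : ∀ n : ℕ, Measurable fun R : Code => f R n k := fun n =>
      (measurable_pi_apply k).comp ((measurable_pi_apply n).comp hf1)
    exact measurableSet_eq_fun ((hk n).comp hA) ((hk m).comp hB)
  exact ((hF measurableSet_EH).inter (hG measurableSet_EH)).inter ((hm F G hF hG).inter
    (hm G F hG hF))

theorem measurable_Phi : Measurable Phi := continuous_Phi.measurable

theorem meas_A1 {E : Set Code} (hE : Cls E) : MeasurableSet (A1 E) := by
  have : A1 E = E ∩ (Del ⁻¹' {M | UH M} ∩ {R : Code | R ∈ EH ∧ Phi (Del R) ∈ EH ∧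
      Nonempty (OfCode R ≃o OfCode (Phi (Del R)))}) := by
    ext R
    simp only [A1, Set.mem_ofPred_eq, Set.mem_inter_iff, Set.mem_preimage]
    constructor
    · rintro ⟨h1, h2, h3⟩
      exact ⟨h1, h2, hE.sub h1, Phi_EH h2, h3⟩
    · rintro ⟨h1, h2, -, -, h3⟩
      exact ⟨h1, h2, h3⟩
  rw [this]
  exact hE.meas.inter ((measurable_Del measurableSet_UH).inter
    (meas_iso id (fun R => Phi (Del R)) measurable_id (measurable_Phi.comp measurable_Del)))

theorem meas_Cn {E : Set Code} (hE : Cls E) (n : ℕ) : MeasurableSet (Cn E n) := by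
  induction n with
  | zero => exact hE.meas.diff (meas_A1 hE)
  | succ n ih =>
    have : Cn E (n + 1) = A1 E ∩ ({R : Code | Del R = Psi (red (Del R))} ∩
        (fun R : Code => red (Del R)) ⁻¹' Cn E n) := by
      ext R
      exact Iff.rfl
    rw [this]
    exact (meas_A1 hE).inter ((meas_str_eq _ _ measurable_Del
      (measurable_Psi.comp (measurable_red.comp measurable_Del))).inter
      ((measurable_red.comp measurable_Del) ih))

theorem meas_CC {E : Set Code} (hE : Cls E) : MeasurableSet (CC E) := by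
  have : CC E = ⋃ n, Cn E n := by
    ext R
    simp only [CC, Set.mem_ofPred_eq, Set.mem_iUnion]
  rw [this]
  exact MeasurableSet.iUnion fun n => meas_Cn hE n

open Classical in
/-- The functor from posets to structures. -/
noncomputable def FF (E : Set Code) (R : Code) : Str arU := if R ∈ CC E then Psi R else Del R

open Classical in
/-- The enumeration of the elements which carry the structure. -/
noncomputable def vv (E : Set Code) (R : Code) : ℕ → ℕ := if R ∈ CC E then id else uu R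

open Classical in
/-- The map from structures to posets. -/
noncomputable def GG (E : Set Code) (M : Str arU) : Code :=
  if M = Psi (red M) ∧ red M ∈ CC E then red M else Phi M

section main

variable {E : Set Code}

theorem FF_pos {R : Code} (h : R ∈ CC E) : FF E R = Psi R := if_pos h

theorem FF_neg {R : Code} (h : R ∉ CC E) : FF E R = Del R := if_neg h

theorem vv_pos {R : Code} (h : R ∈ CC E) : vv E R = id := if_pos h

theorem vv_neg {R : Code} (h : R ∉ CC E) : vv E R = uu R := if_neg h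

theorem GG_pos {M : Str arU} (h : M = Psi (red M) ∧ red M ∈ CC E) : GG E M = red M := if_pos h

theorem GG_neg {M : Str arU} (h : ¬ (M = Psi (red M) ∧ red M ∈ CC E)) : GG E M = Phi M :=
  if_neg h

theorem measurable_FF (hE : Cls E) : Measurable (FF E) :=
  Measurable.ite (meas_CC hE) measurable_Psi measurable_Del

theorem measurable_vv (hE : Cls E) : Measurable (vv E) :=
  Measurable.ite (meas_CC hE) measurable_const measurable_uu

theorem measurable_GG (hE : Cls E) : Measurable (GG E) :=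
  Measurable.ite ((meas_str_eq _ _ measurable_id (measurable_Psi.comp measurable_red)).inter
    (measurable_red (meas_CC hE))) measurable_red measurable_Phi

theorem FF_UH (hE : Cls E) {R : Code} (hR : R ∈ E) : UH (FF E R) := by
  by_cases h : R ∈ CC E
  · rw [FF_pos h]
    exact (uh_Psi_iff R).mpr (hE.sub hR).2
  · rw [FF_neg h]
    exact (not_CC hR h).2.1

theorem GG_mem (hE : Cls E) {M : Str arU} (hM : UH M) : GG E M ∈ E := by
  by_cases h : M = Psi (red M) ∧ red M ∈ CC E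
  · rw [GG_pos h]
    exact CC_sub h.2
  · rw [GG_neg h]
    exact hE.two _ (Phi_EH hM) (Phi_height M)

theorem GG_FF {R : Code} (hR : R ∈ E) :
    Nonempty (OfCode (GG E (FF E R)) ≃o OfCode R) := by
  by_cases h : R ∈ CC E
  · rw [FF_pos h]
    have h1 : Psi R = Psi (red (Psi R)) ∧ red (Psi R) ∈ CC E := by
      rw [red_Psi]
      exact ⟨rfl, h⟩
    rw [GG_pos h1, red_Psi]
    exact ⟨OrderIso.refl _⟩
  · rw [FF_neg h]
    have h1 := not_CC hR h
    have h2 : ¬ (Del R = Psi (red (Del R)) ∧ red (Del R) ∈ CC E) := fun h3 =>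
      h (CC_of_Del h1 h3.1 h3.2)
    rw [GG_neg h2]
    obtain ⟨-, -, ⟨ρ⟩⟩ := h1
    exact ⟨ρ.symm⟩

theorem FF_GG (hE : Cls E) {M : Str arU} (hM : UH M) :
    ∃ g : Equiv.Perm ℕ, IsIso (FF E (GG E M)) M g := by
  by_cases h : M = Psi (red M) ∧ red M ∈ CC E
  · rw [GG_pos h, FF_pos h.2, ← h.1]
    exact ⟨_, isIso_refl M⟩
  · rw [GG_neg h]
    have hP : Phi M ∈ A1 E := mem_A1 (hE.two _ (Phi_EH hM) (Phi_height M)) hM (OrderIso.refl _)
    obtain ⟨g, -, hg⟩ := decode M (Phi M) (OrderIso.refl _)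
    have h1 : Phi M ∉ CC E := by
      rintro ⟨n, hn⟩
      cases n with
      | zero => exact hn.2 hP
      | succ n =>
        obtain ⟨-, h2, h3⟩ := hn
        have hg' := hg
        rw [h2] at hg'
        obtain ⟨h4, h5⟩ := Psi_image hg'
        obtain ⟨f, -⟩ := (isIso_Psi_iff' _ _ _).mp h5
        exact h ⟨h4, CC_inv hE ⟨n, h3⟩ f⟩
    rw [FF_neg h1]
    exact ⟨g, hg⟩

/-- No isomorphism between the two parts. -/
theorem FF_mixed (hE : Cls E) {R S : Code} (hR : R ∈ CC E) (hS : S ∈ E) (hS' : S ∉ CC E)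
    (g : Equiv.Perm ℕ) : ¬ IsIso (Psi R) (Del S) g := by
  intro h
  obtain ⟨h1, h2⟩ := Psi_image h
  obtain ⟨f, -⟩ := (isIso_Psi_iff' _ _ _).mp h2
  exact hS' (CC_of_Del (not_CC hS hS') h1 (CC_inv hE hR f))

theorem FF_iff (hE : Cls E) {R S : Code} (hR : R ∈ E) (hS : S ∈ E) (g : Equiv.Perm ℕ) :
    IsIso (FF E R) (FF E S) g ↔
      ∃ f : OfCode R ≃o OfCode S, ∀ x, f (vv E R x) = vv E S (g x) := by
  by_cases h : R ∈ CC E <;> by_cases h' : S ∈ CC E
  · rw [FF_pos h, FF_pos h', vv_pos h, vv_pos h']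
    exact isIso_Psi_iff' R S g
  · rw [FF_pos h, FF_neg h']
    refine iff_of_false (FF_mixed hE h hS h' g) ?_
    rintro ⟨f, -⟩
    exact h' (CC_inv hE h f)
  · rw [FF_neg h, FF_pos h']
    refine iff_of_false (fun h1 => FF_mixed hE h' hR h g.symm h1.symm) ?_
    rintro ⟨f, -⟩
    exact h (CC_inv hE h' f.symm)
  · rw [FF_neg h, FF_neg h', vv_neg h, vv_neg h']
    obtain ⟨-, -, ⟨ρ⟩⟩ := not_CC hR h
    obtain ⟨-, -, ⟨σ⟩⟩ := not_CC hS h'
    exact dec_iff ρ σ g

theorem FF_all (hE : Cls E) {R S : Code} (hR : R ∈ E) (hS : S ∈ E)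
    (f : OfCode R ≃o OfCode S) : ∃ g : Equiv.Perm ℕ, ∀ x, f (vv E R x) = vv E S (g x) := by
  by_cases h : R ∈ CC E
  · have h' := CC_inv hE h f
    rw [vv_pos h, vv_pos h']
    exact ⟨f.toEquiv, fun x => rfl⟩
  · have h' : S ∉ CC E := fun h1 => h (CC_inv hE h1 f.symm)
    rw [vv_neg h, vv_neg h']
    obtain ⟨-, -, ⟨ρ⟩⟩ := not_CC hR h
    obtain ⟨-, -, ⟨σ⟩⟩ := not_CC hS h'
    exact dec_all ρ σ f

theorem FF_fin {R : Code} (hR : R ∈ E) (p : OfCode R) : ∃ K : Finset ℕ,
    ∀ (S : Code) (f f' : OfCode R ≃o OfCode S),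
      (∀ x ∈ K, f (vv E R x) = f' (vv E R x)) → f p = f' p := by
  by_cases h : R ∈ CC E
  · rw [vv_pos h]
    exact ⟨{p}, fun S f f' hf => hf p (Finset.mem_singleton_self _)⟩
  · rw [vv_neg h]
    obtain ⟨-, -, ⟨ρ⟩⟩ := not_CC hR h
    exact dec_fin ρ p

theorem vv_inj {R : Code} (hR : R ∈ E) : Function.Injective (vv E R) := by
  by_cases h : R ∈ CC E
  · rw [vv_pos h]
    exact Function.injective_id
  · rw [vv_neg h]
    obtain ⟨-, -, ⟨ρ⟩⟩ := not_CC hR h
    exact dec_inj ρ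

end main

/-- **Equivalence of groupoids.** -/
theorem equivB {E : Set Code} (hE : Cls E) :
    ∃ (F : Code → Str arU) (G : Str arU → Code) (u : Code → ℕ → ℕ),
      Measurable F ∧ Measurable G ∧ Measurable u ∧
      (∀ R ∈ E, UH (F R)) ∧ (∀ M, UH M → G M ∈ E) ∧
      (∀ R ∈ E, Nonempty (OfCode (G (F R)) ≃o OfCode R)) ∧
      (∀ M, UH M → ∃ g, IsIso (F (G M)) M g) ∧
      (∀ R ∈ E, Function.Injective (u R)) ∧
      (∀ R ∈ E, ∀ S ∈ E, ∀ g : Equiv.Perm ℕ, IsIso (F R) (F S) g ↔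
        ∃ f : OfCode R ≃o OfCode S, ∀ x, f (u R x) = u S (g x)) ∧
      (∀ R ∈ E, ∀ S ∈ E, ∀ f : OfCode R ≃o OfCode S,
        ∃ g : Equiv.Perm ℕ, ∀ x, f (u R x) = u S (g x)) ∧
      ∀ R ∈ E, ∀ p : OfCode R, ∃ K : Finset ℕ, ∀ (S : Code) (f f' : OfCode R ≃o OfCode S),
        (∀ x ∈ K, f (u R x) = f' (u R x)) → f p = f' p :=
  ⟨FF E, GG E, vv E, measurable_FF hE, measurable_GG hE, measurable_vv hE,
    fun _ hR => FF_UH hE hR, fun _ hM => GG_mem hE hM, fun _ hR => GG_FF hR,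
    fun _ hM => FF_GG hE hM, fun _ hR => vv_inj hR, fun _ hR _ hS g => FF_iff hE hR hS g,
    fun _ hR _ hS f => FF_all hE hR hS f, fun _ hR p => FF_fin hR p⟩

end Pool.Agent.Work.MP_f1d084_lc
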